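import Pool.Agent.MHP.Stmts

/-! MHP, row ST1: the relation of stage 1. -/

set_option autoImplicit false

namespace Pool.Agent.MHP.H98

open Pool.Agent.HMT Pool.Agent.MHP

section

variable {W V : Type}

open Classical in
/-- The embedding of the piece. -/
noncomputable def io (x : W) (r : V) : V ↪ W ⊕ {v : V // v ≠ r} where
  toFun v := if h : v = r then Sum.inl x else Sum.inr ⟨v, h⟩
  inj' := by
    intro u v h
    by_cases hu : u = r <;> by_cases hv : v = r
    · rw [hu, hv]
    · simp [hu, hv] at h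
    · simp [hu, hv] at h
    · simpa [hu, hv] using h

theorem io_root (x : W) (r : V) : io x r r = Sum.inl x := dif_pos rfl

theorem io_ne (x : W) (r : V) (v : V) (h : v ≠ r) : io x r v = Sum.inr ⟨v, h⟩ := dif_neg h

theorem io_inl (x : W) (r : V) (v : V) (a : W) (h : io x r v = Sum.inl a) : v = r ∧ a = x := by
  by_cases hv : v = r
  · subst hv
    rw [io_root] at h
    exact ⟨rfl, (Sum.inl.inj h).symm⟩
  · rw [io_ne x r v hv] at h
    exact absurd h (by simp)

theorem io_inr (x : W) (r : V) (v : V) (w : {v : V // v ≠ r}) (h : io x r v = Sum.inr w) :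
    v = w := by
  by_cases hv : v = r
  · subst hv
    rw [io_root] at h
    exact absurd h (by simp)
  · rw [io_ne x r v hv] at h
    exact congrArg Subtype.val (Sum.inr.inj h)

theorem glue_sup (S Y : SimpleGraph W) (x : W) (Z : SimpleGraph V) (r : V) :
    glue S x (⊥ : SimpleGraph V) r ⊔
      (Y.map (Function.Embedding.inl : W ↪ W ⊕ {v : V // v ≠ r}) ⊔ Z.map (io x r)) =
      glue (S ⊔ Y) x Z r := by
  ext a b
  simp only [SimpleGraph.sup_adj, SimpleGraph.map_adj]
  rcases a with a | a <;> rcases b with b | b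
  · constructor
    · rintro (h | ⟨u, v, h, hu, hv⟩ | ⟨u, v, h, hu, hv⟩)
      · exact Or.inl h
      · have e1 : u = a := Sum.inl.inj hu
        have e2 : v = b := Sum.inl.inj hv
        subst e1 e2
        exact Or.inr h
      · obtain ⟨hu, -⟩ := io_inl x r u a hu
        obtain ⟨hv, -⟩ := io_inl x r v b hv
        rw [hu, hv] at h
        exact absurd h (Z.irrefl)
    · rintro (h | h)
      · exact Or.inl h
      · exact Or.inr (Or.inl ⟨a, b, h, rfl, rfl⟩)
  · constructor
    · rintro (h | ⟨u, v, h, hu, hv⟩ | ⟨u, v, h, hu, hv⟩)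
      · exact absurd h.2 (by simp)
      · exact absurd hv (by simp [Function.Embedding.inl])
      · obtain ⟨hu, ha⟩ := io_inl x r u a hu
        have hv := io_inr x r v b hv
        rw [hu, hv] at h
        exact ⟨ha, h⟩
    · rintro ⟨h, h'⟩
      refine Or.inr (Or.inr ⟨r, b, h', ?_, ?_⟩)
      · rw [io_root, h]
      · rw [io_ne x r b b.2]
  · constructor
    · rintro (h | ⟨u, v, h, hu, hv⟩ | ⟨u, v, h, hu, hv⟩)
      · exact absurd h.2 (by simp)
      · exact absurd hu (by simp [Function.Embedding.inl])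
      · obtain ⟨hv, hb⟩ := io_inl x r v b hv
        have hu := io_inr x r u a hu
        rw [hu, hv] at h
        exact ⟨hb, h.symm⟩
    · rintro ⟨h, h'⟩
      refine Or.inr (Or.inr ⟨a, r, h'.symm, ?_, ?_⟩)
      · rw [io_ne x r a a.2]
      · rw [io_root, h]
  · constructor
    · rintro (h | ⟨u, v, h, hu, hv⟩ | ⟨u, v, h, hu, hv⟩)
      · exact absurd h (by simp [glue])
      · exact absurd hu (by simp [Function.Embedding.inl])
      · have hu := io_inr x r u a hu
        have hv := io_inr x r v b hv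
        rw [hu, hv] at h
        exact h
    · intro h
      refine Or.inr (Or.inr ⟨a, b, h, ?_, ?_⟩)
      · rw [io_ne x r a a.2]
      · rw [io_ne x r b b.2]

theorem glue_bot (Y : SimpleGraph W) (x : W) (Z : SimpleGraph V) (r : V) :
    glue Y x Z r =
      (Y.map (Function.Embedding.inl : W ↪ W ⊕ {v : V // v ≠ r}) ⊔ Z.map (io x r)) := by
  have h := glue_sup (⊥ : SimpleGraph W) Y x Z r
  have h0 : glue (⊥ : SimpleGraph W) x (⊥ : SimpleGraph V) r = ⊥ := by
    ext a b
    rcases a with a | a <;> rcases b with b | b <;> simp [glue]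
  rw [h0, bot_sup_eq, bot_sup_eq] at h
  exact h.symm

theorem disj (Y : SimpleGraph W) (x : W) (Z : SimpleGraph V) (r : V) :
    Disjoint (Y.map (Function.Embedding.inl : W ↪ W ⊕ {v : V // v ≠ r})) (Z.map (io x r)) := by
  rw [SimpleGraph.disjoint_left]
  rintro a b h1 h2
  rw [SimpleGraph.map_adj] at h1 h2
  obtain ⟨u, v, -, rfl, rfl⟩ := h1
  obtain ⟨u', v', h, hu, hv⟩ := h2
  obtain ⟨hu, -⟩ := io_inl x r u' u hu
  obtain ⟨hv, -⟩ := io_inl x r v' v hv
  rw [hu, hv] at h
  exact Z.irrefl h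

end

theorem st1 (h1 : MobStmt) (h2 : SplStmt) (h3 : EmbStmt) (h4 : CngStmt) : St1Stmt := by
  intro P A L _ M a b hA ha hM hX
  refine ⟨hA, ha, hM, ?_⟩
  intro W _ S T x
  have key : ∀ (V : Type) [Finite V] (C : SimpleGraph V) (r : V),
      tog C (fun Z => ev (f1 P) S T x Z r) =
        tog T (fun Y => mu P (glue (S ⊔ Y) x C r)) := by
    intro V _ C r
    have e1 : ∀ Z : SimpleGraph V, ev (f1 P) S T x Z r =
        tog T (fun Y => tog Z (fun Z' => mu P (glue (S ⊔ Y) x Z' r))) := by
      intro Z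
      unfold ev f1
      rw [glue_bot T x Z r, h2 _ _ _ _ _ (disj T x Z r), h3]
      congr 1
      funext Y
      rw [h3]
      congr 1
      funext Z'
      rw [glue_sup]
    simp only [e1]
    rw [(h4 V ℤ C).2.2.2.2 W T
      (fun Z Y => tog Z (fun Z' => mu P (glue (S ⊔ Y) x Z' r)))]
    congr 1
    funext Y
    exact h1 V ℤ C (fun Z' => mu P (glue (S ⊔ Y) x Z' r))
  rw [key]
  simp only [key]
  have e2 := (h4 W ℤ T).2.1 (fun Y => mu P (glue (S ⊔ Y) x A.G A.r)) a
  rw [← e2]
  have e3 : ∀ l, b l • tog T (fun Y => mu P (glue (S ⊔ Y) x (M l).G (M l).r)) =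
      tog T (fun Y => b l • mu P (glue (S ⊔ Y) x (M l).G (M l).r)) := fun l =>
    ((h4 W ℤ T).2.1 (fun Y => mu P (glue (S ⊔ Y) x (M l).G (M l).r)) (b l)).symm
  simp only [e3]
  rw [← (h4 W ℤ T).2.2.2.1 L Finset.univ
    (fun l Y => b l • mu P (glue (S ⊔ Y) x (M l).G (M l).r))]
  congr 1
  funext Y
  have := hX ⟨W, S ⊔ Y, x⟩
  simpa [smul_eq_mul] using this

end Pool.Agent.MHP.H98
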